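import Pool.Agent.H1.LD.D

set_option autoImplicit false

namespace LD1

open Complex Set Filter Topology MeasureTheory EW1 EX1 ND1
open scoped ComplexConjugate ContDiff Real

theorem k1_bd {f : ℕ → ℂ} {s C : ℝ} (hs : 0 < s) (hC : ∀ n, ‖f n‖ * s ^ n ≤ C) {r : ℝ} (hr : 0 ≤ r) (n : ℕ)
    {z : ℂ} (hz : ‖z‖ ≤ r) : ‖f n * z ^ n‖ ≤ C * (r / s) ^ n := by
  rw [norm_mul, norm_pow, div_pow]
  have h1 : ‖z‖ ^ n ≤ r ^ n := pow_le_pow_left₀ (norm_nonneg _) hz n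
  have h2 : 0 < s ^ n := pow_pos hs n
  have h3 : ‖f n‖ ≤ C / s ^ n := by
    rw [le_div_iff₀ h2]
    exact hC n
  calc ‖f n‖ * ‖z‖ ^ n ≤ (C / s ^ n) * r ^ n :=
        mul_le_mul h3 h1 (pow_nonneg (norm_nonneg _) n) ((norm_nonneg _).trans h3)
    _ = C * (r ^ n / s ^ n) := by ring

theorem k1_sum {f : ℕ → ℂ} {s C : ℝ} (hs : 0 < s) (hC : ∀ n, ‖f n‖ * s ^ n ≤ C) {z : ℂ} (hz : ‖z‖ < s) :
    Summable fun n => f n * z ^ n := by
  have h1 : Summable fun n : ℕ => C * (‖z‖ / s) ^ n :=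
    (summable_geometric_of_lt_one (div_nonneg (norm_nonneg _) hs.le) ((div_lt_one hs).2 hz)).mul_left C
  exact Summable.of_norm_bounded h1 (fun n => k1_bd hs hC (norm_nonneg _) n le_rfl)

theorem k1_diff {f : ℕ → ℂ} {s C : ℝ} (hs : 0 < s) (hC : ∀ n, ‖f n‖ * s ^ n ≤ C) {z : ℂ} (hz : ‖z‖ < s) :
    DifferentiableAt ℂ (fun w => ∑' n, f n * w ^ n) z := by
  obtain ⟨r, hr1, hr2⟩ := exists_between hz
  have hr0 : 0 < r := (norm_nonneg _).trans_lt hr1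
  have h1 : Summable fun n : ℕ => C * (r / s) ^ n :=
    (summable_geometric_of_lt_one (div_nonneg hr0.le hs.le) ((div_lt_one hs).2 hr2)).mul_left C
  have h2 : DifferentiableOn ℂ (fun w => ∑' n, f n * w ^ n) (Metric.ball 0 r) := by
    refine differentiableOn_tsum_of_summable_norm h1 (fun n => ?_) Metric.isOpen_ball (fun n w hw => ?_)
    · exact ((differentiable_id.pow n).const_mul (f n)).differentiableOn
    · refine k1_bd hs hC hr0.le n ?_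
      have : ‖w‖ < r := by simpa using hw
      exact this.le
  exact h2.differentiableAt (Metric.isOpen_ball.mem_nhds (by simpa using hr1))

theorem k1_inj (n : ℕ) : ∀ {f : ℕ → ℂ}, Gr f → (∀ z : ℂ, ‖z‖ < 1 → z ≠ 0 → ∑' k, f k * z ^ k = 0) → f n = 0 := by
  have hzero : ∀ {f : ℕ → ℂ}, Gr f → (∀ z : ℂ, ‖z‖ < 1 → z ≠ 0 → ∑' k, f k * z ^ k = 0) → f 0 = 0 := by
    intro f hf h
    obtain ⟨C, hC⟩ := hf (1 / 2) (by norm_num) (by norm_num)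
    have h1 : ContinuousAt (fun w : ℂ => ∑' k, f k * w ^ k) 0 :=
      (k1_diff (by norm_num) hC (by norm_num : ‖(0 : ℂ)‖ < 1 / 2)).continuousAt
    have h2 : Tendsto (fun w : ℂ => ∑' k, f k * w ^ k) (𝓝[≠] 0) (𝓝 (∑' k, f k * (0 : ℂ) ^ k)) :=
      h1.tendsto.mono_left nhdsWithin_le_nhds
    have h3 : (fun w : ℂ => ∑' k, f k * w ^ k) =ᶠ[𝓝[≠] 0] fun _ => 0 := by
      have h4 : ∀ᶠ w : ℂ in 𝓝[≠] 0, ‖w‖ < 1 := by
        apply nhdsWithin_le_nhds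
        exact (continuous_norm.tendsto (0 : ℂ)).eventually (gt_mem_nhds (by simp))
      have h5 : ∀ᶠ w : ℂ in 𝓝[≠] 0, w ≠ 0 := self_mem_nhdsWithin
      filter_upwards [h4, h5] with w hw hw'
      exact h w hw hw'
    have h6 : Tendsto (fun w : ℂ => ∑' k, f k * w ^ k) (𝓝[≠] 0) (𝓝 0) :=
      Tendsto.congr' h3.symm tendsto_const_nhds
    have h7 := tendsto_nhds_unique h2 h6
    rw [tsum_eq_single 0 (fun k hk => by rw [zero_pow hk, mul_zero])] at h7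
    simpa using h7
  induction n with
  | zero => exact fun {f} hf h => hzero hf h
  | succ n ih =>
    intro f hf h
    have h0 := hzero hf h
    have hg : Gr (fun k => f (k + 1)) := by
      intro s hs hs1
      obtain ⟨C, hC⟩ := hf s hs hs1
      refine ⟨C / s, fun k => ?_⟩
      rw [le_div_iff₀ hs, mul_assoc, ← pow_succ]
      exact hC (k + 1)
    refine ih hg (fun z hz hz0 => ?_)
    obtain ⟨s, hs1, hs2⟩ := exists_between hz
    have hs0 : 0 < s := (norm_nonneg _).trans_lt hs1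
    obtain ⟨C, hC⟩ := hf s hs0 hs2
    have h1 := (k1_sum hs0 hC hs1).tsum_eq_zero_add
    rw [h z hz hz0, h0, zero_mul, zero_add] at h1
    have h2 : ∑' k, f (k + 1) * z ^ (k + 1) = z * ∑' k, f (k + 1) * z ^ k := by
      rw [← tsum_mul_left]
      refine tsum_congr (fun k => ?_)
      ring
    rw [h2] at h1
    rcases mul_eq_zero.1 h1.symm with h3 | h3
    · exact absurd h3 hz0
    · exact h3

theorem k1_ex {m ρ : ℝ} (hm : 0 ≤ m) (hρ : 0 ≤ ρ) (h : ρ * m < 1) : ∃ s : ℝ, ρ < s ∧ 0 < s ∧ s * m < 1 := by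
  refine ⟨ρ + (1 - ρ * m) / (2 * (m + 1)), ?_, ?_, ?_⟩
  · have : 0 < (1 - ρ * m) / (2 * (m + 1)) := div_pos (by linarith) (by linarith)
    linarith
  · have : 0 < (1 - ρ * m) / (2 * (m + 1)) := div_pos (by linarith) (by linarith)
    linarith
  · have h1 : (1 - ρ * m) / (2 * (m + 1)) * m ≤ (1 - ρ * m) / 2 := by
      rw [div_mul_eq_mul_div, div_le_div_iff₀ (by linarith) (by norm_num)]
      nlinarith
    nlinarith

/-- the sum of a power series without constant term -/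
noncomputable def GG (f : ℕ → ℂ) (z : ℂ) : ℂ := ∑' n, f n * z ^ (n + 1)

theorem GG_eq (f : ℕ → ℂ) (z : ℂ) : GG f z = z * ∑' n, f n * z ^ n := by
  rw [GG, ← tsum_mul_left]
  refine tsum_congr (fun k => ?_)
  ring

theorem GG_sum {f : ℕ → ℂ} {s C : ℝ} (hs : 0 < s) (hC : ∀ n, ‖f n‖ * s ^ n ≤ C) {z : ℂ} (hz : ‖z‖ < s) :
    Summable fun n => f n * z ^ (n + 1) := by
  have h1 := (k1_sum hs hC hz).mul_left z
  refine h1.congr (fun n => ?_)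
  ring

theorem GG_diff {f : ℕ → ℂ} {s C : ℝ} (hs : 0 < s) (hC : ∀ n, ‖f n‖ * s ^ n ≤ C) {z : ℂ} (hz : ‖z‖ < s) :
    DifferentiableAt ℂ (GG f) z := by
  have h1 : GG f = fun w => w * ∑' n, f n * w ^ n := funext (GG_eq f)
  rw [h1]
  exact differentiableAt_id.mul (k1_diff hs hC hz)

theorem inv_diff {μ w : ℂ} (hw : w ≠ 0) : DifferentiableAt ℂ (fun w : ℂ => μ * w⁻¹) w :=
  (differentiableAt_inv hw).const_mul μ

theorem sE_hol' {μ : ℂ} {f : ℕ → ℂ} (hf : Gr f) : DifferentiableOn ℂ (sE μ f) {w | ‖μ‖ < ‖w‖ ∧ ‖w‖ < 1} ∧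
    ∀ w : ℂ, ‖μ‖ < ‖w‖ → ‖w‖ < 1 → Summable (fun n : ℕ => f n * (w ^ (n + 1) - (μ * w⁻¹) ^ (n + 1))) ∧
      sE μ f w = GG f w - GG f (μ * w⁻¹) := by
  have key : ∀ w : ℂ, ‖μ‖ < ‖w‖ → ‖w‖ < 1 → ∃ s C : ℝ, 0 < s ∧ (∀ n, ‖f n‖ * s ^ n ≤ C) ∧ ‖w‖ < s ∧
      ‖μ * w⁻¹‖ < s := by
    intro w h1 h2
    have hw : 0 < ‖w‖ := (norm_nonneg _).trans_lt h1
    have h3 : ‖μ * w⁻¹‖ < 1 := by
      rw [norm_mul, norm_inv, ← div_eq_mul_inv, div_lt_one hw]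
      exact h1
    obtain ⟨s, hs1, hs2⟩ := exists_between (max_lt h2 h3)
    have hs0 : 0 < s := hw.trans ((le_max_left _ _).trans_lt hs1)
    obtain ⟨C, hC⟩ := hf s hs0 hs2
    exact ⟨s, C, hs0, hC, (le_max_left _ _).trans_lt hs1, (le_max_right _ _).trans_lt hs1⟩
  have hsum : ∀ w : ℂ, ‖μ‖ < ‖w‖ → ‖w‖ < 1 → Summable (fun n : ℕ => f n * (w ^ (n + 1) - (μ * w⁻¹) ^ (n + 1))) ∧
      sE μ f w = GG f w - GG f (μ * w⁻¹) := by
    intro w h1 h2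
    obtain ⟨s, C, hs0, hC, h3, h4⟩ := key w h1 h2
    have s1 := GG_sum hs0 hC h3
    have s2 := GG_sum hs0 hC h4
    constructor
    · refine (s1.sub s2).congr (fun n => ?_)
      ring
    · rw [GG, GG, ← s1.tsum_sub s2, sE]
      refine tsum_congr (fun n => ?_)
      ring
  refine ⟨fun w hw => ?_, hsum⟩
  obtain ⟨s, C, hs0, hC, h3, h4⟩ := key w hw.1 hw.2
  have hw0 : w ≠ 0 := norm_pos_iff.1 ((norm_nonneg _).trans_lt hw.1)
  have h5 : DifferentiableWithinAt ℂ (fun w => GG f w - GG f (μ * w⁻¹)) {w | ‖μ‖ < ‖w‖ ∧ ‖w‖ < 1} w :=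
    ((GG_diff hs0 hC h3).sub (DifferentiableAt.comp w (GG_diff hs0 hC h4) (inv_diff hw0))).differentiableWithinAt
  exact h5.congr (fun v hv => (hsum v hv.1 hv.2).2) (hsum w hw.1 hw.2).2

theorem sE_hol'' {μ : ℂ} (hμ : ‖μ‖ < 1) {f : ℕ → ℂ} (hf : Gr f) : DifferentiableOn ℂ (sE μ f) {w | ‖μ‖ < ‖w‖ ∧ ‖w‖ < 1} ∧
    ∀ w : ℂ, ‖μ‖ < ‖w‖ → ‖w‖ < 1 → Summable (fun n : ℕ => f n * (w ^ (n + 1) - (μ * w⁻¹) ^ (n + 1))) :=
  ⟨(sE_hol' hf).1, fun w h1 h2 => ((sE_hol' hf).2 w h1 h2).1⟩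

theorem sY_hol' {μ : ℂ} (y : ℂ) {g : ℕ → ℂ} (hg : Dc μ g) :
    DifferentiableOn ℂ (sY μ y g) {w | ‖μ‖ ^ 2 < ‖w‖ ∧ ‖w‖ * ‖μ‖ < 1} ∧ DifferentiableOn ℂ (sE μ g) {w | ‖μ‖ ^ 2 < ‖w‖ ∧ ‖w‖ * ‖μ‖ < 1} ∧
    ∀ w : ℂ, ‖μ‖ ^ 2 < ‖w‖ → ‖w‖ * ‖μ‖ < 1 → Summable (fun n : ℕ => g n * (w ^ (n + 1) + (μ * w⁻¹) ^ (n + 1))) ∧
      Summable (fun n : ℕ => g n * (w ^ (n + 1) - (μ * w⁻¹) ^ (n + 1))) := by
  have key : ∀ w : ℂ, ‖μ‖ ^ 2 < ‖w‖ → ‖w‖ * ‖μ‖ < 1 → ∃ s C : ℝ, 0 < s ∧ (∀ n, ‖g n‖ * s ^ n ≤ C) ∧ ‖w‖ < s ∧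
      ‖μ * w⁻¹‖ < s := by
    intro w h1 h2
    have hw : 0 < ‖w‖ := (sq_nonneg _).trans_lt h1
    have h3 : ‖μ * w⁻¹‖ * ‖μ‖ < 1 := by
      rw [norm_mul, norm_inv, mul_right_comm, ← div_eq_mul_inv, div_lt_one hw, ← sq]
      exact h1
    have h4 : max ‖w‖ ‖μ * w⁻¹‖ * ‖μ‖ < 1 := by
      rcases max_choice ‖w‖ ‖μ * w⁻¹‖ with h5 | h5
      · rw [h5]; exact h2
      · rw [h5]; exact h3
    obtain ⟨s, hs1, hs0, hs2⟩ := k1_ex (norm_nonneg μ) ((norm_nonneg w).trans (le_max_left _ _)) h4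
    obtain ⟨C, hC⟩ := hg s hs0 hs2
    exact ⟨s, C, hs0, hC, (le_max_left _ _).trans_lt hs1, (le_max_right _ _).trans_lt hs1⟩
  have hsum : ∀ w : ℂ, ‖μ‖ ^ 2 < ‖w‖ → ‖w‖ * ‖μ‖ < 1 → (Summable (fun n : ℕ => g n * (w ^ (n + 1) + (μ * w⁻¹) ^ (n + 1))) ∧
      Summable (fun n : ℕ => g n * (w ^ (n + 1) - (μ * w⁻¹) ^ (n + 1)))) ∧
      sY μ y g w = y + (GG g w + GG g (μ * w⁻¹)) ∧ sE μ g w = GG g w - GG g (μ * w⁻¹) := by
    intro w h1 h2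
    obtain ⟨s, C, hs0, hC, h3, h4⟩ := key w h1 h2
    have s1 := GG_sum hs0 hC h3
    have s2 := GG_sum hs0 hC h4
    refine ⟨⟨?_, ?_⟩, ?_, ?_⟩
    · refine (s1.add s2).congr (fun n => ?_)
      ring
    · refine (s1.sub s2).congr (fun n => ?_)
      ring
    · rw [GG, GG, ← s1.tsum_add s2, sY]
      congr 1
      refine tsum_congr (fun n => ?_)
      ring
    · rw [GG, GG, ← s1.tsum_sub s2, sE]
      refine tsum_congr (fun n => ?_)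
      ring
  refine ⟨fun w hw => ?_, fun w hw => ?_, fun w h1 h2 => (hsum w h1 h2).1⟩
  · obtain ⟨s, C, hs0, hC, h3, h4⟩ := key w hw.1 hw.2
    have hw0 : w ≠ 0 := norm_pos_iff.1 ((sq_nonneg _).trans_lt hw.1)
    have h5 : DifferentiableWithinAt ℂ (fun w => y + (GG g w + GG g (μ * w⁻¹))) {w | ‖μ‖ ^ 2 < ‖w‖ ∧ ‖w‖ * ‖μ‖ < 1} w :=
      (((GG_diff hs0 hC h3).add (DifferentiableAt.comp w (GG_diff hs0 hC h4) (inv_diff hw0))).const_add y).differentiableWithinAt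
    exact h5.congr (fun v hv => (hsum v hv.1 hv.2).2.1) (hsum w hw.1 hw.2).2.1
  · obtain ⟨s, C, hs0, hC, h3, h4⟩ := key w hw.1 hw.2
    have hw0 : w ≠ 0 := norm_pos_iff.1 ((sq_nonneg _).trans_lt hw.1)
    have h5 : DifferentiableWithinAt ℂ (fun w => GG g w - GG g (μ * w⁻¹)) {w | ‖μ‖ ^ 2 < ‖w‖ ∧ ‖w‖ * ‖μ‖ < 1} w :=
      ((GG_diff hs0 hC h3).sub (DifferentiableAt.comp w (GG_diff hs0 hC h4) (inv_diff hw0))).differentiableWithinAt
    exact h5.congr (fun v hv => (hsum v hv.1 hv.2).2.2) (hsum w hw.1 hw.2).2.2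

theorem sE_inj' {μ : ℂ} (hμ : ‖μ‖ < 1) {f : ℕ → ℂ} (hf : Gr f) (h : ∀ w : ℂ, ‖μ‖ < ‖w‖ → ‖w‖ < 1 → sE μ f w = 0) (n : ℕ) : f n = 0 := by
  have hG0 : GG f 0 = 0 := by rw [GG_eq, zero_mul]
  have hGd : ∀ z : ℂ, ‖z‖ < 1 → DifferentiableAt ℂ (GG f) z := by
    intro z hz
    obtain ⟨s, hs1, hs2⟩ := exists_between hz
    have hs0 : 0 < s := (norm_nonneg _).trans_lt hs1
    obtain ⟨C, hC⟩ := hf s hs0 hs2
    exact GG_diff hs0 hC hs1
  have hagree : ∀ w : ℂ, ‖μ‖ < ‖w‖ → ‖w‖ < 1 → GG f w = GG f (μ * w⁻¹) := by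
    intro w h1 h2
    have h3 := h w h1 h2
    rw [((sE_hol' hf).2 w h1 h2).2] at h3
    exact sub_eq_zero.1 h3
  set H : ℂ → ℂ := fun w => if ‖w‖ < 1 then GG f w else GG f (μ * w⁻¹) with hH
  have hout : ∀ w : ℂ, ‖μ‖ < ‖w‖ → H w = GG f (μ * w⁻¹) := by
    intro w hw
    by_cases h1 : ‖w‖ < 1
    · simp only [hH, if_pos h1]
      exact hagree w hw h1
    · simp only [hH, if_neg h1]
  have hin : ∀ w : ℂ, ‖w‖ < 1 → H w = GG f w := fun w hw => by simp only [hH, if_pos hw]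
  have hdiff : Differentiable ℂ H := by
    intro w
    by_cases h1 : ‖w‖ < 1
    · have h2 : H =ᶠ[𝓝 w] GG f := by
        have h3 : ∀ᶠ v in 𝓝 w, ‖v‖ < 1 := (continuous_norm.tendsto w).eventually (gt_mem_nhds h1)
        filter_upwards [h3] with v hv
        exact hin v hv
      exact (hGd w h1).congr_of_eventuallyEq h2
    · have h1' : ‖μ‖ < ‖w‖ := hμ.trans_le (not_lt.1 h1)
      have hw0 : w ≠ 0 := norm_pos_iff.1 ((norm_nonneg _).trans_lt h1')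
      have h2 : H =ᶠ[𝓝 w] fun v => GG f (μ * v⁻¹) := by
        have h3 : ∀ᶠ v in 𝓝 w, ‖μ‖ < ‖v‖ := (continuous_norm.tendsto w).eventually (lt_mem_nhds h1')
        filter_upwards [h3] with v hv
        exact hout v hv
      have h4 : ‖μ * w⁻¹‖ < 1 := by
        rw [norm_mul, norm_inv, ← div_eq_mul_inv, div_lt_one ((norm_nonneg _).trans_lt h1')]
        exact h1'
      exact (DifferentiableAt.comp w (hGd _ h4) (inv_diff hw0)).congr_of_eventuallyEq h2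
  have hbd : Bornology.IsBounded (range H) := by
    have b1 : Bornology.IsBounded (H '' Metric.closedBall 0 1) :=
      ((isCompact_closedBall (0 : ℂ) 1).image hdiff.continuous).isBounded
    have b2 : Bornology.IsBounded (GG f '' Metric.closedBall 0 ‖μ‖) := by
      refine ((isCompact_closedBall (0 : ℂ) ‖μ‖).image_of_continuousOn (fun z hz => ?_)).isBounded
      have : ‖z‖ < 1 := lt_of_le_of_lt (by simpa using hz) hμ
      exact (hGd z this).continuousAt.continuousWithinAt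
    refine (b1.union b2).subset ?_
    rintro _ ⟨w, rfl⟩
    by_cases h1 : ‖w‖ ≤ 1
    · exact Or.inl ⟨w, by simpa using h1, rfl⟩
    · right
      have h1' : 1 < ‖w‖ := not_le.1 h1
      refine ⟨μ * w⁻¹, ?_, (hout w (hμ.trans h1')).symm⟩
      have : ‖μ * w⁻¹‖ ≤ ‖μ‖ := by
        rw [norm_mul, norm_inv]
        exact mul_le_of_le_one_right (norm_nonneg _) (inv_le_one_of_one_le₀ h1'.le)
      simpa using this
  have hzero : ∀ z : ℂ, ‖z‖ < 1 → GG f z = 0 := by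
    intro z hz
    have h1 := hdiff.apply_eq_apply_of_bounded hbd z 0
    rw [hin z hz, hin 0 (by simp), hG0] at h1
    exact h1
  refine k1_inj n hf (fun z hz hz0 => ?_)
  have h1 := hzero z hz
  rw [GG_eq] at h1
  rcases mul_eq_zero.1 h1 with h2 | h2
  · exact absurd h2 hz0
  · exact h2

end LD1
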