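import Pool.Agent.H1.LD.D

set_option autoImplicit false

namespace LD1

open Complex Set Filter Topology MeasureTheory EW1 EX1 ND1
open scoped ComplexConjugate ContDiff Real

/-- the sector inequality -/
theorem sector_ineq {τ t l : ℝ} {u : ℂ} (hτ : 0 ≤ τ) (ht : 0 < t) (hu : ‖u‖ = 1) (hl : |l| < 1) :
    t * (1 - |l|) / (1 + |l|) ≤ ‖(τ : ℂ) * (1 + (l : ℂ) * u) ^ 2 + (t : ℂ)‖ := by
  set s : ℂ := 1 + (l : ℂ) * u with hs
  have hlu : ‖(l : ℂ) * u‖ = |l| := by rw [norm_mul, hu, mul_one, Complex.norm_real, Real.norm_eq_abs]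
  have hre : 1 - |l| ≤ s.re := by
    have h1 : -‖(l : ℂ) * u‖ ≤ ((l : ℂ) * u).re := (abs_le.1 (Complex.abs_re_le_norm _)).1
    have h2 : s.re = 1 + ((l : ℂ) * u).re := by simp [hs]
    rw [h2]
    rw [hlu] at h1
    linarith
  have hn : ‖s‖ ≤ 1 + |l| := by
    calc ‖s‖ ≤ ‖(1 : ℂ)‖ + ‖(l : ℂ) * u‖ := norm_add_le _ _
      _ = 1 + |l| := by rw [hlu, norm_one]
  have hrp : 0 < s.re := by linarith
  have hs0 : s ≠ 0 := by
    intro h
    rw [h] at hrp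
    simp at hrp
  have hnp : 0 < ‖s‖ := norm_pos_iff.2 hs0
  have hfac : (τ : ℂ) * s ^ 2 + (t : ℂ) = s * ((τ : ℂ) * s + (t : ℂ) * s⁻¹) := by
    field_simp
  have hre2 : ((τ : ℂ) * s + (t : ℂ) * s⁻¹).re = τ * s.re + t * (s.re / ‖s‖ ^ 2) := by
    rw [Complex.add_re, Complex.re_ofReal_mul, Complex.re_ofReal_mul, Complex.inv_re, Complex.normSq_eq_norm_sq]
  have h3 : t * (s.re / ‖s‖ ^ 2) ≤ ‖(τ : ℂ) * s + (t : ℂ) * s⁻¹‖ := by
    refine le_trans ?_ (Complex.re_le_norm _)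
    rw [hre2]
    have : 0 ≤ τ * s.re := mul_nonneg hτ hrp.le
    linarith
  rw [hfac, norm_mul]
  calc t * (1 - |l|) / (1 + |l|) ≤ t * s.re / ‖s‖ := by
        have hl0 := abs_nonneg l
        apply div_le_div₀ (mul_pos ht hrp).le (mul_le_mul_of_nonneg_left hre ht.le) hnp hn
    _ = ‖s‖ * (t * (s.re / ‖s‖ ^ 2)) := by field_simp
    _ ≤ ‖s‖ * ‖(τ : ℂ) * s + (t : ℂ) * s⁻¹‖ := mul_le_mul_of_nonneg_left h3 hnp.le

theorem Uw_ne' {μ : ℂ} (hμ : ‖μ‖ < 1) {a : ℝ} {γ β : ℂ} (h3 : ‖γ‖ + |a| + ‖β‖ = 1) :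
    {x : ℂ | x ≠ 0 ∧ Uw μ a γ β x = 0}.Finite := by
  obtain ⟨κ, hκ⟩ : ∃ κ : ℂ, κ = ((a * (1 - ‖μ‖ ^ 2) - (conj μ * β).re : ℝ) : ℂ) := ⟨_, rfl⟩
  obtain ⟨k1, hk1⟩ : ∃ k1 : ℂ, k1 = (γ - μ * conj γ) / 2 := ⟨_, rfl⟩
  obtain ⟨k3, hk3⟩ : ∃ k3 : ℂ, k3 = (conj γ - conj μ * γ) / 2 := ⟨_, rfl⟩
  obtain ⟨k4, hk4⟩ : ∃ k4 : ℂ, k4 = conj β / 2 := ⟨_, rfl⟩
  set p : Polynomial ℂ := Polynomial.C k4 * Polynomial.X ^ 4 +
    Polynomial.C k3 * Polynomial.X ^ 3 +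
    Polynomial.C κ * Polynomial.X ^ 2 +
    Polynomial.C k1 * Polynomial.X + Polynomial.C (β / 2) with hp
  have hp0 : p ≠ 0 := by
    intro h
    have c0 : p.coeff 0 = β / 2 := by
      simp [hp, Polynomial.coeff_X, Polynomial.coeff_C]
    have c1 : p.coeff 1 = k1 := by
      simp [hp, Polynomial.coeff_X, Polynomial.coeff_C, Polynomial.coeff_X_pow]
    have c2 : p.coeff 2 = κ := by
      simp [hp, Polynomial.coeff_X, Polynomial.coeff_C, Polynomial.coeff_X_pow]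
    rw [h, Polynomial.coeff_zero] at c0 c1 c2
    rw [hκ] at c2
    rw [hk1] at c1
    have hβ : β = 0 := by
      have := c0.symm
      simpa using this
    have hγ : γ = 0 := by
      have h4 : γ = μ * conj γ := by
        have h5 : (γ - μ * conj γ) / 2 = 0 := c1.symm
        have h6 : γ - μ * conj γ = 0 := by simpa using h5
        exact sub_eq_zero.1 h6
      have h7 : ‖γ‖ = ‖μ‖ * ‖γ‖ := by
        conv_lhs => rw [h4]
        rw [norm_mul, RCLike.norm_conj]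
      by_contra hne
      have h8 : 0 < ‖γ‖ := norm_pos_iff.2 hne
      nlinarith
    have ha : a = 0 := by
      rw [hβ] at c2
      have h9 : a * (1 - ‖μ‖ ^ 2) = 0 := by
        have h10 : (((a * (1 - ‖μ‖ ^ 2) - (conj μ * (0 : ℂ)).re : ℝ)) : ℂ) = 0 := c2.symm
        have h11 := Complex.ofReal_eq_zero.1 h10
        simpa using h11
      rcases mul_eq_zero.1 h9 with h12 | h12
      · exact h12
      · have := norm_nonneg μ
        nlinarith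
    rw [hβ, hγ, ha] at h3
    simp at h3
  refine (Polynomial.finite_setOf_isRoot hp0).subset ?_
  rintro x ⟨hx0, hx⟩
  have h4 : p.eval x = x ^ 2 * Uw μ a γ β x := by
    simp only [hp, Polynomial.eval_add, Polynomial.eval_mul, Polynomial.eval_C, Polynomial.eval_pow,
      Polynomial.eval_X, Uw, ← hκ, ← hk1, ← hk3, ← hk4]
    field_simp
  change p.eval x = 0
  rw [h4, hx, mul_zero]

end LD1
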